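import Mathlib

/-! MP_b1d8d5_co, Q1: a (3,2,1)-COILS of order 12 exists. -/

namespace Pool.Agent.Results.MP_b1d8d5_co.Order12

/-- `op` is a quasigroup operation: both kinds of linear equations are uniquely solvable. -/
def IsQuasigroup {S : Type} (op : S → S → S) : Prop :=
  ∀ a b, (∃! x, op a x = b) ∧ ∃! x, op x a = b

/-- `star` is the (3,2,1)-conjugate of `op`: `star z y = x` iff `op x y = z`. -/
def IsConj321 {S : Type} (op star : S → S → S) : Prop :=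
  ∀ x y z, star z y = x ↔ op x y = z

/-- orthogonality of two operations -/
def Orthogonal {S : Type} (op star : S → S → S) : Prop :=
  ¬ ∃ a b c d, a ≠ b ∧ c ≠ d ∧ op a c = op b d ∧ star a c = star b d

/-- `op` is a (3,2,1)-COILS: an idempotent quasigroup orthogonal to its (3,2,1)-conjugate. -/
def IsCOILS321 {S : Type} (op : S → S → S) : Prop :=
  IsQuasigroup op ∧ (∀ x, op x x = x) ∧ ∃ star, IsConj321 op star ∧ Orthogonal op star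

def tab : List (Fin 12) :=
  [0, 3, 8, 6, 5, 7, 11, 10, 1, 4, 2, 9, 8, 1, 4, 9, 7, 0, 10, 6, 11, 2, 5, 3, 1, 9, 2, 5, 10,
    8, 4, 11, 7, 6, 3, 0, 9, 2, 10, 3, 0, 11, 1, 5, 6, 8, 7, 4, 6, 10, 3, 11, 4, 1, 5, 2, 0,
    7, 9, 8, 2, 7, 11, 4, 6, 5, 9, 0, 3, 1, 8, 10, 5, 4, 7, 10, 8, 3, 6, 9, 2, 0, 11, 1, 4,
    0, 5, 8, 11, 9, 2, 7, 10, 3, 1, 6, 10, 5, 1, 0, 9, 6, 7, 3, 8, 11, 4, 2, 7, 11, 0, 2, 1,
    10, 3, 8, 4, 9, 6, 5, 11, 8, 6, 1, 3, 2, 0, 4, 9, 5, 10, 7, 3, 6, 9, 7, 2, 4, 8, 1, 5,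
    10, 0, 11]

def ldt : List (Fin 12) :=
  [0, 8, 10, 1, 9, 4, 3, 5, 2, 11, 7, 6, 5, 1, 9, 11, 2, 10, 7, 4, 0, 3, 6, 8, 11, 0, 2, 10,
    6, 3, 9, 8, 5, 1, 4, 7, 4, 6, 1, 3, 11, 7, 8, 10, 9, 0, 2, 5, 8, 5, 7, 2, 4, 6, 0, 9,
    11, 10, 1, 3, 7, 9, 0, 8, 3, 5, 4, 1, 10, 6, 11, 2, 9, 11, 8, 5, 1, 0, 6, 2, 4, 7, 3,
    10, 1, 10, 6, 9, 0, 2, 11, 7, 3, 5, 8, 4, 3, 2, 11, 7, 10, 1, 5, 6, 8, 4, 0, 9, 2, 4, 3,
    6, 8, 11, 10, 0, 7, 9, 5, 1, 6, 3, 5, 4, 7, 9, 2, 11, 1, 8, 10, 0, 10, 7, 4, 0, 5, 8, 1,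
    3, 6, 2, 9, 11]

def rdt : List (Fin 12) :=
  [0, 7, 9, 8, 3, 1, 10, 5, 4, 6, 11, 2, 2, 1, 8, 10, 9, 4, 3, 11, 0, 5, 7, 6, 5, 3, 2, 9, 11,
    10, 7, 4, 6, 1, 0, 8, 11, 0, 4, 3, 10, 6, 9, 8, 5, 7, 2, 1, 7, 6, 1, 5, 4, 11, 2, 10, 9,
    0, 8, 3, 6, 8, 7, 2, 0, 5, 4, 3, 11, 10, 1, 9, 4, 11, 10, 0, 5, 8, 6, 1, 3, 2, 9, 7, 9,
    5, 6, 11, 1, 0, 8, 7, 2, 4, 3, 10, 1, 10, 0, 7, 6, 2, 11, 9, 8, 3, 5, 4, 3, 2, 11, 1, 8,
    7, 5, 6, 10, 9, 4, 0, 8, 4, 3, 6, 2, 9, 1, 0, 7, 11, 10, 5, 10, 9, 5, 4, 7, 3, 0, 2, 1,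
    8, 6, 11]

def look (l : List (Fin 12)) (a b : Fin 12) : Fin 12 := l.getD (12 * a.val + b.val) 0

theorem h1 : ∀ a b : Fin 12, look tab a (look ldt a b) = b ∧ look ldt a (look tab a b) = b ∧
    look tab (look rdt a b) b = a ∧ look rdt (look tab a b) b = a ∧ look tab a a = a := by
  decide +kernel

theorem h2 : ∀ f c d : Fin 12, look tab (look tab f c) c = look tab (look tab f d) d → c = d := by
  decide +kernel

/-- **Q1: yes.** There is an idempotent quasigroup on 12 elements which is orthogonal to its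
(3,2,1)-conjugate. -/
theorem result : ∃ op : Fin 12 → Fin 12 → Fin 12, IsCOILS321 op := by
  refine ⟨look tab, ?_, fun x => (h1 x x).2.2.2.2, look rdt, ?_, ?_⟩
  · intro a b
    refine ⟨⟨look ldt a b, (h1 a b).1, ?_⟩, ⟨look rdt b a, (h1 b a).2.2.1, ?_⟩⟩
    · intro y hy
      have h : look tab a y = b := hy
      rw [← h, (h1 a y).2.1]
    · intro y hy
      have h : look tab y a = b := hy
      rw [← h, (h1 y a).2.2.2.1]
  · intro x y z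
    constructor
    · rintro rfl
      exact (h1 z y).2.2.1
    · rintro rfl
      exact (h1 x y).2.2.2.1
  · rintro ⟨a, b, c, d, -, hcd, h3, h4⟩
    -- with `f` the common value of `star`, `a = f c`, `b = f d`
    have h5 : look tab (look rdt a c) c = a := (h1 a c).2.2.1
    have h6 : look tab (look rdt b d) d = b := (h1 b d).2.2.1
    rw [← h4] at h6
    apply hcd
    apply h2 (look rdt a c) c d
    rw [h5, h6]
    exact h3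

end Pool.Agent.Results.MP_b1d8d5_co.Order12
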